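import Pool.Agent.H26.U.Stmts

/-!
# Project U (MP_0c7934_co): all `n` from the squarefree ones
-/

namespace Pool.Agent.H15.U

open Pool.Agent.H26.U Pool.Agent.H54.Etf

/-- an odd number is the product of a squarefree number and a number all whose prime divisors `p`
satisfy `p ^ 2 ∣ m` -/
lemma exists_split (m : ℕ) (hm : Odd m) : ∃ a b : ℕ, m = a * b ∧ Squarefree a ∧ Odd a ∧ Odd b ∧
    b.primeFactors.card ≤ (m.primeFactors.filter (fun p => p ^ 2 ∣ m)).card := by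
  have hm0 : m ≠ 0 := by rintro rfl; exact absurd hm (by decide)
  obtain ⟨s, hs⟩ : ∃ s, s = m.primeFactors.filter (fun p => ¬ p ^ 2 ∣ m) := ⟨_, rfl⟩
  have hsp : ∀ p ∈ s, Nat.Prime p ∧ p ∣ m := by
    intro p hp
    rw [hs, Finset.mem_filter] at hp
    exact ⟨Nat.prime_of_mem_primeFactors hp.1, Nat.dvd_of_mem_primeFactors hp.1⟩
  obtain ⟨b, hb⟩ : (∏ p ∈ s, p) ∣ m :=
    Finset.prod_primes_dvd m (fun p hp => (hsp p hp).1.prime) (fun p hp => (hsp p hp).2)
  have hsq : Squarefree (∏ p ∈ s, p) := by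
    refine Finset.squarefree_prod_of_pairwise_isCoprime (fun p hp q hq hpq => ?_) (fun p hp => ?_)
    · exact Nat.coprime_iff_isRelPrime.1 ((Nat.coprime_primes (hsp p hp).1 (hsp q hq).1).2 hpq)
    · exact (hsp p hp).1.squarefree
  have hodd := hm
  rw [hb, Nat.odd_mul] at hodd
  refine ⟨_, b, hb, hsq, hodd.1, hodd.2, Finset.card_le_card fun p hp => ?_⟩
  have hp1 := Nat.prime_of_mem_primeFactors hp
  have hp2 := Nat.dvd_of_mem_primeFactors hp
  have hp3 : p ∈ m.primeFactors := by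
    rw [Nat.mem_primeFactors]
    exact ⟨hp1, by rw [hb]; exact hp2.mul_left _, hm0⟩
  rw [Finset.mem_filter]
  refine ⟨hp3, ?_⟩
  by_contra h
  have h1 : p ∈ s := by rw [hs, Finset.mem_filter]; exact ⟨hp3, h⟩
  apply h
  rw [hb, pow_two]
  exact mul_dvd_mul (Finset.dvd_prod_of_mem _ h1) hp2

/-- ALL -/
theorem ALL (hM : S_MAIN) : S_ALL := by
  obtain ⟨k0, hk0⟩ := hM
  refine ⟨k0, fun k n hn hk => ?_⟩
  obtain ⟨a, m, hm, rfl⟩ := Nat.exists_eq_two_pow_mul_odd (n := n) (by omega)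
  rw [erase_two hm] at hk
  have hd : ∀ p ∈ m.primeFactors, (p ^ 2 ∣ 2 ^ a * m ↔ p ^ 2 ∣ m) := by
    intro p hp
    have hp1 := Nat.prime_of_mem_primeFactors hp
    have hp2 := Nat.dvd_of_mem_primeFactors hp
    have hc : Nat.Coprime (p ^ 2) (2 ^ a) := by
      refine Nat.Coprime.pow _ _ ((Nat.coprime_primes hp1 Nat.prime_two).2 ?_)
      rintro rfl
      exact absurd hp2 (by rw [← even_iff_two_dvd, Nat.not_even_iff_odd]; exact hm)
    exact ⟨fun h => hc.dvd_of_dvd_mul_left h, fun h => h.mul_left _⟩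
  rw [Finset.filter_congr hd] at hk
  obtain ⟨u, v, huv, hu, hu1, hv1, hv⟩ := exists_split m hm
  obtain ⟨c, hc⟩ : ∃ c, c = v.primeFactors.card := ⟨_, rfl⟩
  have h1 : Ex (2 * (2 ^ (k + a - 2 * c) * u)) := hk0 _ u (by omega) hu1 hu
  have hu0 : 0 < u := hu1.pos
  have h2 := Ex.odd v hv1 _ (by
    have : 0 < 2 ^ (k + a - 2 * c) * u := Nat.mul_pos (by positivity) hu0
    omega) h1
  have e : 2 * (2 ^ k * (2 ^ a * m)) =
      4 ^ v.primeFactors.card * v * (2 * (2 ^ (k + a - 2 * c) * u)) := by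
    rw [← hc, huv, show (4 : ℕ) = 2 ^ 2 by norm_num, ← pow_mul]
    have h3 : 2 ^ (k + a - 2 * c) * 2 ^ (2 * c) = 2 ^ k * 2 ^ a := by
      rw [← pow_add, ← pow_add]
      congr 1
      omega
    calc 2 * (2 ^ k * (2 ^ a * (u * v))) = 2 * (u * v) * (2 ^ k * 2 ^ a) := by ring
      _ = _ := by rw [← h3]; ring
  rw [e]
  exact h2

end Pool.Agent.H15.U
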