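import Pool.Agent.H26.U.Stmts

/-!
# Project U2 (MP_0c7934_co): every `n` — definitions and statements

Paper proof: team-store `U2_0c7934_helper15.md`.
-/

namespace Pool.Agent.H15.U

open Pool.Agent.H26.U Pool.Agent.H54.Etf

/-- the sixth roots of unity -/
noncomputable def e6 (i : Fin 6) : ℂ := Complex.exp (Complex.I * ((Real.pi * (i : ℕ) / 3 : ℝ) : ℂ))

/-- the amplitude modulated chirp: phase `κ(y) cos (4 π m y / n + π i / 3)` -/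
noncomputable def fam {n : ℕ} (κ : ZMod n → ℝ) (m : ZMod n) (i : Fin 6) (y : ZMod n) : ℂ :=
  ez (y ^ 2) * Complex.exp (Complex.I * ((κ y * (ez (2 * m * y) * e6 i).re : ℝ) : ℂ))

/-- the Euclidean norm of a real function -/
noncomputable def nr {n : ℕ} [NeZero n] (ρ : ZMod n → ℝ) : ℝ := √(∑ y, ρ y ^ 2)

/-- what is left of the autocorrelations of the family without the linear part -/
noncomputable def famT {n : ℕ} [NeZero n] (lam : ℝ) (m : ZMod n) (ρ : ZMod n → ℝ) (x : ZMod n) : ℂ :=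
  ∑ i, acf (fam (fun y => lam + ρ y) m i) x +
    6 * lam * (sz (m * x) : ℂ) ^ 2 * (ez (x ^ 2) + ez (-(x ^ 2))) * ∑ y, (ρ y : ℂ) * ez (2 * x * y)

/-- the quadratic part of the autocorrelation of a perturbed chirp -/
noncomputable def qpart {n : ℕ} [NeZero n] (a : ZMod n → ℂ) (ψ : ZMod n → ℝ) (x : ZMod n) : ℂ :=
  ∑ y, a y * (Complex.exp (Complex.I * ((ψ y - ψ (y - x) : ℝ) : ℂ)) - 1
    - Complex.I * ((ψ y - ψ (y - x) : ℝ) : ℂ))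

/-- the weighted norm -/
noncomputable def nw {X : Type} [Fintype X] (ω : X → ℝ) (r : X → ℂ) : ℝ :=
  √(∑ x, ω x * ‖r x‖ ^ 2)

/-- UB2: sum over the units, all odd `m` -/
def S_UB2 : Prop := ∃ C : ℝ, 0 < C ∧ ∀ (m : ℕ) [NeZero m], Odd m → 3 ≤ m →
  ∑ u : (ZMod m)ˣ, 1 / √|sz (u : ZMod m)| ≤ C * (Nat.totient m : ℝ)

/-- UX2 (from UB2) -/
def S_UX2 : Prop := ∃ C : ℝ, 0 < C ∧ ∀ (n : ℕ) [NeZero n], Odd n → 3 ≤ n →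
  ∀ z : ZMod n, z ≠ 0 → ∑ c : (ZMod n)ˣ, 1 / √|sz ((c : ZMod n) * z)| ≤ C * (Nat.totient n : ℝ)

/-- UNI2 (from UX2) -/
def S_UNI2 : Prop := ∃ A1 : ℝ, ∀ (n : ℕ) [NeZero n], Odd n → 3 ≤ n →
  ∃ c : Fin 4 → ZMod n, (∀ j, IsUnit (c j)) ∧
  (∀ x : ZMod n, x ^ 2 ≠ 0 → 0 < ∑ j, sz (c j * x ^ 2) ^ 2) ∧
  1 / (n : ℝ) * ∑ x ∈ Finset.univ.filter (fun x : ZMod n => x ^ 2 ≠ 0),
    1 / ∑ j, sz (c j * x ^ 2) ^ 2 ≤ A1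

/-- PV: Parseval inequality -/
def S_PV : Prop := ∀ (n : ℕ) [NeZero n], Odd n → ∀ c : ZMod n, IsUnit c → ∀ g : ZMod n → ℂ,
  ∑ y, ((∑ x, g x * ez (-(2 * c * x * y))).re) ^ 2 ≤ n * ∑ x, ‖g x‖ ^ 2

/-- INV: inversion -/
def S_INV : Prop := ∀ (n : ℕ) [NeZero n], Odd n → ∀ c : ZMod n, IsUnit c → ∀ g : ZMod n → ℂ,
  (∀ x, g (-x) = star (g x)) → ∀ x,
  ∑ y, (((∑ x', g x' * ez (-(2 * c * x' * y))).re : ℝ) : ℂ) * ez (2 * c * x * y) = n * g x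

/-- QL: Lipschitz bound of the quadratic part -/
def S_QL : Prop := ∀ (n : ℕ) [NeZero n] (a : ZMod n → ℂ), (∀ y, ‖a y‖ = 1) →
  ∀ (ψ ψ' : ZMod n → ℝ) (x : ZMod n),
  ‖qpart a ψ x - qpart a ψ' x‖ ≤ 4 * (nr ψ + nr ψ') * nr (fun y => ψ y - ψ' y)

/-- LEV: the levels -/
def S_LEV : Prop := ∀ (n : ℕ) [NeZero n] (μ t : ℕ), Odd n → 2 ≤ μ → n ≤ μ ^ (2 * t) →
  ∀ x : ZMod n, x ≠ 0 → x ^ 2 = 0 →
  1 / (μ : ℝ) ^ 2 ≤ ∑ l ∈ Finset.range t, sz (((μ ^ l : ℕ) : ZMod n) * x) ^ 2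

/-- CK0: the number of `x` with `x² = 0` -/
def S_CK0 : Prop := ∀ (n : ℕ) [NeZero n],
  ((Finset.univ.filter (fun x : ZMod n => x ^ 2 = 0)).card) ^ 2 ≤ n

/-- FAM: the amplitude modulated family -/
def S_FAM : Prop := ∀ (n : ℕ) [NeZero n], Odd n → ∀ (m x : ZMod n), x ≠ 0 → ∀ lam : ℝ, 0 ≤ lam →
  lam ≤ 1 → ‖famT lam m (fun _ => 0) x‖ ≤ n * lam ^ 6 ∧
  ∀ ρ ρ' : ZMod n → ℝ, (∀ y, |ρ y| ≤ 1) → (∀ y, |ρ' y| ≤ 1) →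
  ‖famT lam m ρ x - famT lam m ρ' x‖ ≤
    200 * (nr ρ + nr ρ' + lam ^ 3 * √n) * nr (fun y => ρ y - ρ' y)

/-- BAN: Banach's fixed point theorem in weighted `ℓ²` -/
def S_BAN : Prop := ∀ (X : Type) [Fintype X] (ω : X → ℝ), (∀ x, 0 < ω x) →
  ∀ (P : (X → ℂ) → (X → ℂ)) (A L ε R : ℝ), 0 ≤ A → 0 ≤ L → 0 ≤ ε → 0 ≤ R →
  ∑ x, ω x ≤ A ^ 2 → (∀ x, ‖P (fun _ => 0) x‖ ≤ R) →
  (∀ r r' : X → ℂ, nw ω r ≤ 2 * A * R → nw ω r' ≤ 2 * A * R → ∀ x,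
    ‖P r x - P r' x‖ ≤ (L * (nw ω r + nw ω r') + ε) * nw ω (fun x => r x - r' x)) →
  4 * A ^ 2 * L * R + 2 * A * ε < 1 → ∃ r, P r = r ∧ nw ω r ≤ 2 * A * R

/-- FIX2 (from EXP, PV, INV, QL, LEV, CK0, FAM, BAN) -/
def S_FIX2 : Prop := ∀ A1 R0 : ℝ, ∃ K n0 : ℕ, ∀ (n : ℕ) [NeZero n], Odd n → n0 ≤ n →
  ∀ c : Fin 4 → ZMod n, (∀ j, IsUnit (c j)) →
  (∀ x : ZMod n, x ^ 2 ≠ 0 → 0 < ∑ j, sz (c j * x ^ 2) ^ 2) →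
  1 / (n : ℝ) * ∑ x ∈ Finset.univ.filter (fun x : ZMod n => x ^ 2 ≠ 0),
    1 / ∑ j, sz (c j * x ^ 2) ^ 2 ≤ A1 →
  ∀ r0 : ZMod n → ℂ, (∀ x, r0 (-x) = star (r0 x)) → (∀ x, x ≠ 0 → ‖r0 x‖ ≤ R0) →
  ∃ v : Fin K → ZMod n → ℂ, (∀ j y, ‖v j y‖ = 1) ∧ ∀ x, x ≠ 0 → r0 x + ∑ j, acf (v j) x = 0

/-- MAIN2 (from EXP, SEQ, FIX2, UNI2, CRN): every `n` -/
def S_MAIN2 : Prop := ∃ k0 : ℕ, ∀ k n : ℕ, k0 ≤ k → 1 ≤ n → Ex (2 * (2 ^ k * n))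

end Pool.Agent.H15.U
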