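import Pool.Agent.H15.U.FIX2B

/-!
# Project U2, FIX2: the fixed point theorem for every odd `n`
-/

namespace Pool.Agent.H15.U

open Pool.Agent.H26.U Finset

set_option linter.unusedSectionVars false

variable {n : ℕ} [NeZero n]

/-- the perturbed chirp -/
noncomputable def chi (c : ZMod n) (ψ : ZMod n → ℝ) (y : ZMod n) : ℂ :=
  ez (c * y ^ 2) * Complex.exp (Complex.I * ψ y)

lemma exp_eq (hE : S_EXP) (hn : Odd n) {c : ZMod n} (hc : IsUnit c) (ψ : ZMod n → ℝ) {x : ZMod n}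
    (hx : x ≠ 0) : acf (chi c ψ) x =
      2 * (sz (c * x ^ 2) : ℂ) * ∑ y, (ψ y : ℂ) * ez (2 * c * x * y) + qpart (chf c x) ψ x :=
  hE n hn c hc ψ x hx

lemma star_lin (c x : ZMod n) (ψ : ZMod n → ℝ) :
    star (∑ y, (ψ y : ℂ) * ez (2 * c * x * y)) = ∑ y, (ψ y : ℂ) * ez (2 * c * -x * y) := by
  rw [star_sum]
  refine sum_congr rfl fun y _ => ?_
  rw [star_mul', ← ez_neg, Complex.star_def, Complex.conj_ofReal]
  congr 2
  ring

lemma qpart_neg (hE : S_EXP) (hn : Odd n) {c : ZMod n} (hc : IsUnit c) (ψ : ZMod n → ℝ)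
    {x : ZMod n} (hx : x ≠ 0) :
    qpart (chf c (-x)) ψ (-x) = star (qpart (chf c x) ψ x) := by
  have h1 := exp_eq hE hn hc ψ hx
  have h2 := exp_eq hE hn hc ψ (neg_ne_zero.2 hx)
  rw [acf_neg, h1, star_add, star_mul', star_lin, star_mul', neg_sq] at h2
  have e : star (sz (c * x ^ 2) : ℂ) = (sz (c * x ^ 2) : ℂ) := by
    rw [Complex.star_def, Complex.conj_ofReal]
  have e2 : star (2 : ℂ) = 2 := by
    rw [Complex.star_def]
    exact Complex.conj_ofNat 2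
  rw [e, e2] at h2
  exact (add_left_cancel h2).symm

lemma famT_neg (lam : ℝ) (m : ZMod n) (ρ : ZMod n → ℝ) (x : ZMod n) :
    famT lam m ρ (-x) = star (famT lam m ρ x) := by
  have e : star (sz (m * x) : ℂ) = (sz (m * x) : ℂ) := by
    rw [Complex.star_def, Complex.conj_ofReal]
  have e1 : star (lam : ℂ) = (lam : ℂ) := by
    rw [Complex.star_def, Complex.conj_ofReal]
  have e2 : star (6 : ℂ) = 6 := by
    rw [Complex.star_def]
    exact Complex.conj_ofNat 6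
  have h1 := star_lin 1 x ρ
  simp only [mul_one] at h1
  unfold famT
  rw [star_add, star_sum, star_mul', star_mul', star_mul', star_mul', star_add, star_pow, e, e1, e2,
    h1, ← ez_neg, ← ez_neg, neg_sq, neg_neg, mul_neg, sz_neg]
  congr 1
  · exact sum_congr rfl fun i _ => acf_neg _ _
  · push_cast
    ring

lemma PP_neg (hE : S_EXP) (hn : Odd n) (c : Fin 4 → ZMod n) (hc : ∀ j, IsUnit (c j)) (B : ℝ)
    (μ : ℕ) (lam : ℝ) {r0 : ZMod n → ℂ} (hr0 : ∀ x, r0 (-x) = star (r0 x)) (r : ZMod n → ℂ)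
    (x : ZMod n) : PP c B μ lam r0 r (-x) = star (PP c B μ lam r0 r x) := by
  by_cases hx : x = 0
  · rw [hx, neg_zero, PP, if_pos rfl, star_zero]
  have e : star (B : ℂ) = (B : ℂ) := by
    rw [Complex.star_def, Complex.conj_ofReal]
  rw [PP, if_neg (neg_ne_zero.2 hx), PP, if_neg hx, star_add, star_add, star_mul', star_sum,
    star_sum, e, hr0]
  congr 1
  · congr 2
    exact sum_congr rfl fun j _ => qpart_neg hE hn (hc j) _ hx
  · exact sum_congr rfl fun l _ => famT_neg _ _ _ _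

lemma DD_neg (c : Fin 4 → ZMod n) (x : ZMod n) : DD c (-x) = DD c x := by simp [DD]

lemma sg_neg (μ : ℕ) (x : ZMod n) : sg μ (-x) = sg μ x := by
  simp [sg, sz_neg]

lemma gco_neg (c : Fin 4 → ZMod n) {r : ZMod n → ℂ} (hr : ∀ x, r (-x) = star (r x)) (j : Fin 4)
    (x : ZMod n) : gco c r j (-x) = star (gco c r j x) := by
  unfold gco
  rw [neg_sq, DD_neg, hr]
  split_ifs with h
  · rw [star_mul', Complex.star_def, Complex.conj_ofReal]
  · rw [star_zero]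

lemma zco_neg (μ : ℕ) (lam : ℝ) {r : ZMod n → ℂ} (hr : ∀ x, r (-x) = star (r x))
    (x : ZMod n) : zco μ lam r (-x) = star (zco μ lam r x) := by
  by_cases h : x ≠ 0 ∧ x ^ 2 = 0
  · have h' : -x ≠ 0 ∧ (-x) ^ 2 = 0 := ⟨neg_ne_zero.2 h.1, by rw [neg_sq]; exact h.2⟩
    rw [zco, if_pos h', zco, if_pos h, sg_neg, hr, star_mul', Complex.star_def,
      Complex.conj_ofReal]
  · have h' : ¬ (-x ≠ 0 ∧ (-x) ^ 2 = 0) := by
      rw [neg_sq, neg_ne_zero]
      exact h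
    rw [zco, if_neg h', zco, if_neg h, star_zero]

/-- the linear part of the chirps -/
lemma lin_psi (hI : S_INV) (hn : Odd n) (c : Fin 4 → ZMod n) (hc : ∀ j, IsUnit (c j)) {B : ℝ}
    (hB : 0 < B) {r : ZMod n → ℂ} (hr : ∀ x, r (-x) = star (r x)) (j : Fin 4) (x : ZMod n) :
    ∑ y, (psi c B r j y : ℂ) * ez (2 * c j * x * y) = -(1 / (2 * B)) * gco c r j x := by
  have h := hI n hn (c j) (hc j) (gco c r j) (gco_neg c hr j) x
  have hn0 : (n : ℂ) ≠ 0 := by exact_mod_cast NeZero.ne n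
  have hB0 : (B : ℂ) ≠ 0 := by exact_mod_cast hB.ne'
  have e : ∑ y, (psi c B r j y : ℂ) * ez (2 * c j * x * y) = -(1 / (2 * n * B)) *
      ∑ y, (((∑ x', gco c r j x' * ez (-(2 * c j * x' * y))).re : ℝ) : ℂ) *
        ez (2 * c j * x * y) := by
    rw [mul_sum]
    refine sum_congr rfl fun y _ => ?_
    rw [psi]
    push_cast
    ring
  rw [e, h]
  field_simp

/-- the linear part of the family -/
lemma lin_rho (hI : S_INV) (hn : Odd n) (μ : ℕ) (lam : ℝ) {r : ZMod n → ℂ}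
    (hr : ∀ x, r (-x) = star (r x)) (x : ZMod n) :
    ∑ y, (rho μ lam r y : ℂ) * ez (2 * x * y) = n * zco μ lam r x := by
  have h := hI n hn 1 isUnit_one (zco μ lam r) (zco_neg μ lam hr) x
  rw [← h]
  refine sum_congr rfl fun y _ => ?_
  rw [rho, mul_one]

/-- the equation of the fixed point -/
lemma fixed_eq (hE : S_EXP) (hI : S_INV) (hL : S_LEV) (hn : Odd n) (c : Fin 4 → ZMod n)
    (hc : ∀ j, IsUnit (c j)) {B : ℝ} (hB : 0 < B) {μ : ℕ} (hμ : 2 ≤ μ)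
    (hμ1 : n ≤ μ ^ 48) (hD : ∀ x : ZMod n, x ^ 2 ≠ 0 → 0 < DD c x) {lam : ℝ} (hlam : 0 < lam)
    {r0 : ZMod n → ℂ} (hr0 : ∀ x, r0 (-x) = star (r0 x)) {r : ZMod n → ℂ}
    (hr : PP c B μ lam r0 r = r) {x : ZMod n} (hx : x ≠ 0) :
    r0 x + B * ∑ j, acf (chi (c j) (psi c B r j)) x +
      ∑ l ∈ range 24, ∑ i, acf (fam (fun y => lam + rho μ lam r y) (((μ ^ l : ℕ) : ZMod n)) i) x
        = 0 := by
  have hrn : ∀ x, r (-x) = star (r x) := by
    intro x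
    rw [← hr]
    exact PP_neg hE hn c hc B μ lam hr0 r x
  have hn0 : (n : ℂ) ≠ 0 := by exact_mod_cast NeZero.ne n
  have hB0 : (B : ℂ) ≠ 0 := by exact_mod_cast hB.ne'
  have h1 : ∀ j, acf (chi (c j) (psi c B r j)) x =
      -(1 / B) * (sz (c j * x ^ 2) : ℂ) * gco c r j x + qpart (chf (c j) x) (psi c B r j) x := by
    intro j
    rw [exp_eq hE hn (hc j) _ hx, lin_psi hI hn c hc hB hrn]
    congr 1
    field_simp
  have h2 : ∀ l, ∑ i, acf (fam (fun y => lam + rho μ lam r y) (((μ ^ l : ℕ) : ZMod n)) i) x =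
      famT lam (((μ ^ l : ℕ) : ZMod n)) (rho μ lam r) x -
      6 * lam * (sz (((μ ^ l : ℕ) : ZMod n) * x) : ℂ) ^ 2 * (ez (x ^ 2) + ez (-(x ^ 2))) *
        (n * zco μ lam r x) := by
    intro l
    rw [famT, lin_rho hI hn μ lam hrn]
    ring
  have h3 : PP c B μ lam r0 r x = r x := congrFun hr x
  rw [PP, if_neg hx] at h3
  simp only [h1, h2]
  rw [sum_add_distrib, sum_sub_distrib]
  have h4 : (B : ℂ) * ∑ j, -(1 / B) * (sz (c j * x ^ 2) : ℂ) * gco c r j x =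
      - ∑ j, (sz (c j * x ^ 2) : ℂ) * gco c r j x := by
    rw [mul_sum, ← sum_neg_distrib]
    refine sum_congr rfl fun j _ => ?_
    field_simp
  have h5 : ∑ l ∈ range 24, 6 * lam * (sz (((μ ^ l : ℕ) : ZMod n) * x) : ℂ) ^ 2 *
      (ez (x ^ 2) + ez (-(x ^ 2))) * (n * zco μ lam r x) =
      6 * lam * (sg μ x : ℂ) * (ez (x ^ 2) + ez (-(x ^ 2))) * (n * zco μ lam r x) := by
    rw [sg, ← sum_mul, ← sum_mul, ← mul_sum]
    push_cast
    rfl
  rw [mul_add, h4, h5]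
  by_cases hx2 : x ^ 2 = 0
  · have h6 : ∀ j, gco c r j x = 0 := by
      intro j
      rw [gco, if_neg (by simp [hx2])]
    have h7 : (0 : ℝ) < sg μ x := by
      have hm : (0 : ℝ) < μ := by exact_mod_cast (by omega : 0 < μ)
      exact lt_of_lt_of_le (by positivity) (hL n μ 24 hn hμ (by simpa using hμ1) x hx hx2)
    have h8 : (sg μ x : ℂ) ≠ 0 := by exact_mod_cast h7.ne'
    have h9 : (lam : ℂ) ≠ 0 := by exact_mod_cast hlam.ne'
    simp only [h6, mul_zero, sum_const_zero, neg_zero]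
    rw [hx2, neg_zero, ez_zero, zco, if_pos ⟨hx, hx2⟩]
    have h10 : 6 * (lam : ℂ) * (sg μ x : ℂ) * (1 + 1) *
        (n * (((1 / (12 * lam * n * sg μ x) : ℝ) : ℂ) * r x)) = r x := by
      push_cast
      field_simp
      ring
    rw [h10]
    linear_combination h3
  · have h6 : ∑ j, (sz (c j * x ^ 2) : ℂ) * gco c r j x = r x := by
      have h7 := (hD x hx2).ne'
      have h8 : (DD c x : ℂ) ≠ 0 := by exact_mod_cast h7
      have h9 : ∀ j, (sz (c j * x ^ 2) : ℂ) * gco c r j x =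
          (sz (c j * x ^ 2) : ℂ) ^ 2 * (r x / DD c x) := by
        intro j
        rw [gco, if_pos hx2]
        push_cast
        ring
      simp only [h9]
      rw [← sum_mul]
      have h10 : ∑ j, (sz (c j * x ^ 2) : ℂ) ^ 2 = (DD c x : ℂ) := by
        rw [DD]
        push_cast
        rfl
      rw [h10]
      field_simp
    have h7 : zco μ lam r x = 0 := by
      rw [zco, if_neg (by simp [hx2])]
    rw [h6, h7]
    linear_combination h3

lemma norm_chi (c : ZMod n) (ψ : ZMod n → ℝ) (y : ZMod n) : ‖chi c ψ y‖ = 1 := by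
  rw [chi, norm_mul, Pool.Agent.H26.U.norm_ez, norm_expI, one_mul]

lemma norm_fam (κ : ZMod n → ℝ) (m : ZMod n) (i : Fin 6) (y : ZMod n) : ‖fam κ m i y‖ = 1 := by
  rw [fam, norm_mul, Pool.Agent.H26.U.norm_ez, norm_expI, one_mul]

/-- the number `μ` -/
lemma exists_mu (n : ℕ) (hn : 2 ≤ n) : ∃ μ : ℕ, 2 ≤ μ ∧ n ≤ μ ^ 48 ∧ μ ^ 48 ≤ 2 ^ 48 * n := by
  classical
  have hex : ∃ μ : ℕ, n ≤ μ ^ 48 := ⟨n, Nat.le_self_pow (by norm_num) n⟩
  have h1 := Nat.find_spec hex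
  obtain ⟨μ, hμ⟩ : ∃ μ, μ = Nat.find hex := ⟨_, rfl⟩
  rw [← hμ] at h1
  have h2 : 2 ≤ μ := by
    by_contra h
    have h3 : μ = 0 ∨ μ = 1 := by omega
    rcases h3 with h3 | h3 <;> rw [h3] at h1 <;> norm_num at h1 <;> omega
  have h3 : ¬ n ≤ (μ - 1) ^ 48 := by
    rw [hμ]
    exact Nat.find_min hex (by omega)
  refine ⟨μ, h2, h1, ?_⟩
  calc μ ^ 48 ≤ (2 * (μ - 1)) ^ 48 := Nat.pow_le_pow_left (by omega) 48
    _ = 2 ^ 48 * (μ - 1) ^ 48 := by rw [mul_pow]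
    _ ≤ 2 ^ 48 * n := Nat.mul_le_mul_left _ (by omega)

/-- FIX2 -/
theorem FIX2 (hE : S_EXP) (hP : S_PV) (hI : S_INV) (hQ : S_QL) (hL : S_LEV) (hK : S_CK0)
    (hF : S_FAM) (hB : S_BAN) : S_FIX2 := by
  intro A1 R1
  obtain ⟨A2, hA2⟩ : ∃ A2, A2 = max A1 0 + 2 := ⟨_, rfl⟩
  obtain ⟨R2, hR2⟩ : ∃ R2, R2 = max R1 0 := ⟨_, rfl⟩
  have hR20 : 0 ≤ R2 := by rw [hR2]; exact le_max_right _ _
  have hA20 : 0 < A2 := by
    rw [hA2]
    have := le_max_right A1 0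
    linarith
  obtain ⟨A, hA⟩ : ∃ A, A = √A2 := ⟨_, rfl⟩
  have hA0 : 0 ≤ A := by rw [hA]; exact Real.sqrt_nonneg _
  have hAA : A ^ 2 = A2 := by rw [hA]; exact Real.sq_sqrt hA20.le
  obtain ⟨R, hR⟩ : ∃ R, R = R2 + 24 := ⟨_, rfl⟩
  have hR0 : 0 ≤ R := by rw [hR]; linarith
  obtain ⟨B, hB1⟩ := exists_nat_gt (32 * A ^ 2 * R)
  have hB0 : (0 : ℝ) < B := lt_of_le_of_lt (by positivity) hB1
  obtain ⟨e0, he0⟩ : ∃ e0 : ℝ, e0 = 1 / (19200 * A ^ 2 * R * 2 + 9600 * A * 2 + 2 * A * R + 1) :=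
    ⟨_, rfl⟩
  have hden : 0 < 19200 * A ^ 2 * R * 2 + 9600 * A * 2 + 2 * A * R + 1 := by positivity
  have he00 : 0 < e0 := by rw [he0]; positivity
  obtain ⟨μ0, hμ0⟩ := exists_nat_gt (2 ^ 24 / e0)
  have hμ00 : (0 : ℝ) < μ0 := lt_trans (by positivity) hμ0
  refine ⟨4 * B + 24 * 6, max (μ0 ^ 48 + 1) 2, fun n _ hn hn0 c hc hD hA1 r0 hr0 hr1 => ?_⟩
  have hn2 : 2 ≤ n := le_trans (le_max_right _ _) hn0
  have hn3 : μ0 ^ 48 + 1 ≤ n := le_trans (le_max_left _ _) hn0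
  obtain ⟨μ, hμ, hμ1, hμ2⟩ := exists_mu n hn2
  have hμμ : μ0 < μ := by
    by_contra h
    have := Nat.pow_le_pow_left (not_lt.1 h) 48
    omega
  have hm : (0 : ℝ) < μ := by exact_mod_cast (by omega : 0 < μ)
  have hm1 : (1 : ℝ) ≤ μ := by exact_mod_cast (by omega : 1 ≤ μ)
  obtain ⟨e, he⟩ : ∃ e, e = 2 ^ 24 / (μ : ℝ) ^ 2 := ⟨_, rfl⟩
  have hepos : 0 < e := by rw [he]; positivity
  have hee : e ≤ e0 := by
    have h1 : (2 : ℝ) ^ 24 / e0 ≤ (μ : ℝ) ^ 2 := by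
      have h2 : (μ0 : ℝ) ≤ μ := by exact_mod_cast hμμ.le
      have h3 : (μ : ℝ) ≤ (μ : ℝ) ^ 2 := by
        rw [pow_two]
        exact le_mul_of_one_le_left hm.le hm1
      linarith
    rw [he, div_le_iff₀ (by positivity)]
    rw [div_le_iff₀ he00] at h1
    linarith
  have hemul : e * (19200 * A ^ 2 * R * 2 + 9600 * A * 2 + 2 * A * R + 1) ≤ 1 := by
    refine le_trans (mul_le_mul_of_nonneg_right hee hden.le) (le_of_eq ?_)
    rw [he0]
    field_simp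
  have he1 : e * (2 * A * R) ≤ 1 := by
    refine le_trans (mul_le_mul_of_nonneg_left ?_ hepos.le) hemul
    have h1 : 0 ≤ 19200 * A ^ 2 * R * 2 := by positivity
    have h2 : 0 ≤ 9600 * A * 2 := by positivity
    linarith
  have hele1 : e ≤ 1 := by
    refine le_trans ?_ hemul
    have h1 : 0 ≤ 19200 * A ^ 2 * R * 2 + 9600 * A * 2 + 2 * A * R := by positivity
    calc e = e * 1 := (mul_one e).symm
      _ ≤ _ := mul_le_mul_of_nonneg_left (by linarith) hepos.le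
  have hlam : 0 < 1 / (μ : ℝ) ^ 8 := by positivity
  have hsum : ∑ x, om c μ x ≤ A ^ 2 := by
    refine le_trans (om_sum hK c hμ hμ1 hA1) ?_
    rw [hAA, hA2]
    have := le_max_left A1 0
    linarith
  have hcond : 4 * A ^ 2 * (4 / B + 4800 * e ^ 2) * R + 2 * A * (4800 * e) < 1 := by
    have h1 : 4 * A ^ 2 * (4 / B) * R < 1 / 2 := by
      rw [show 4 * A ^ 2 * (4 / B) * R = (16 * A ^ 2 * R) / B by ring, div_lt_iff₀ hB0]
      linarith
    have h2 : 4 * A ^ 2 * (4800 * e ^ 2) * R + 2 * A * (4800 * e) ≤ 1 / 2 := by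
      have h3 : e ^ 2 ≤ e := by
        rw [pow_two]
        exact mul_le_of_le_one_left hepos.le hele1
      have h4 : 4 * A ^ 2 * (4800 * e ^ 2) * R ≤ 4 * A ^ 2 * (4800 * e) * R := by gcongr
      have h5 : e * (19200 * A ^ 2 * R * 2 + 9600 * A * 2) ≤ 1 := by
        refine le_trans (mul_le_mul_of_nonneg_left ?_ hepos.le) hemul
        have h1 : 0 ≤ 2 * A * R := by positivity
        linarith
      linarith
    calc 4 * A ^ 2 * (4 / B + 4800 * e ^ 2) * R + 2 * A * (4800 * e) =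
        4 * A ^ 2 * (4 / B) * R + (4 * A ^ 2 * (4800 * e ^ 2) * R + 2 * A * (4800 * e)) := by ring
      _ < 1 := by linarith
  obtain ⟨r, hr, -⟩ := hB (ZMod n) (om c μ) (om_pos c hμ hD)
    (PP c B μ (1 / (μ : ℝ) ^ 8) r0) A (4 / B + 4800 * e ^ 2) (4800 * e) R hA0 (by positivity)
    (by positivity) hR0 hsum
    (fun x => by
      rw [hR]
      exact PP_zero hF hn c hμ hμ1 hR20 (fun x hx => le_trans (hr1 x hx) (by
        rw [hR2]; exact le_max_left _ _)) x)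
    (fun r r' hr hr' x => PP_lip hP hQ hL hF hn c hc hB0 hμ hμ1 hμ2 hD r0 he he1 r r' hr hr' x)
    hcond
  have hcard : Fintype.card (Fin (4 * B + 24 * 6)) =
      Fintype.card ((Fin 4 × Fin B) ⊕ (Fin 24 × Fin 6)) := by
    simp only [Fintype.card_fin, Fintype.card_sum, Fintype.card_prod]
  obtain ⟨E, -⟩ : ∃ E : Fin (4 * B + 24 * 6) ≃ ((Fin 4 × Fin B) ⊕ (Fin 24 × Fin 6)), True :=
    ⟨Fintype.equivOfCardEq hcard, trivial⟩
  obtain ⟨v, hv⟩ : ∃ v : ((Fin 4 × Fin B) ⊕ (Fin 24 × Fin 6)) → ZMod n → ℂ,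
      v = Sum.elim (fun p => chi (c p.1) (psi c B r p.1))
        (fun p => fam (fun y => 1 / (μ : ℝ) ^ 8 + rho μ (1 / (μ : ℝ) ^ 8) r y)
          (((μ ^ (p.1 : ℕ) : ℕ) : ZMod n)) p.2) := ⟨_, rfl⟩
  have hv1 : ∀ j y, ‖v j y‖ = 1 := by
    intro j y
    rw [hv]
    rcases j with j | j
    · rw [Sum.elim_inl]
      exact norm_chi _ _ _
    · rw [Sum.elim_inr]
      exact norm_fam _ _ _ _
  refine ⟨fun j => v (E j), fun j y => hv1 _ _, fun x hx => ?_⟩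
  · rw [Equiv.sum_comp E (fun j => acf (v j) x), Fintype.sum_sum_type, hv]
    simp only [Sum.elim_inl, Sum.elim_inr, Fintype.sum_prod_type, sum_const, card_univ,
      Fintype.card_fin, nsmul_eq_mul]
    rw [← fixed_eq hE hI hL hn c hc hB0 hμ hμ1 hD hlam hr0 hr hx, ← mul_sum]
    rw [Finset.sum_range (fun l => ∑ i, acf (fam (fun y => 1 / (μ : ℝ) ^ 8 +
      rho μ (1 / (μ : ℝ) ^ 8) r y) (((μ ^ l : ℕ) : ZMod n)) i) x)]
    push_cast
    ring

end Pool.Agent.H15.U
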