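import Pool.Agent.H26.U.Stmts

/-!
# Project U (MP_0c7934_co): the main theorem from the sequences, the fixed point theorem, the units
and the corner theorem
-/

namespace Pool.Agent.H15.U

open Pool.Agent.H26.U Pool.Agent.H54.Etf

lemma acf_neg {H : Type*} [AddCommGroup H] [Fintype H] (f : H → ℂ) (x : H) :
    acf f (-x) = star (acf f x) := by
  unfold acf
  rw [star_sum, ← Equiv.sum_comp (Equiv.subRight x)]
  refine Finset.sum_congr rfl fun y _ => ?_
  simp only [Equiv.subRight_apply, star_mul', star_star]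
  rw [show y - x - -x = y by abel, mul_comm]

lemma norm_ez {n : ℕ} (v : ZMod n) : ‖(ez v : ℂ)‖ = 1 := by
  unfold ez
  rw [show (2 * (Real.pi : ℂ) * Complex.I * ((v.val : ℂ) / n)) =
    ((2 * Real.pi * ((v.val : ℝ) / n) : ℝ) : ℂ) * Complex.I by push_cast; ring]
  exact Complex.norm_exp_ofReal_mul_I _

lemma norm_expI (a : ℝ) : ‖Complex.exp (Complex.I * (a : ℂ))‖ = 1 := by
  rw [mul_comm]
  exact Complex.norm_exp_ofReal_mul_I _

lemma acf_chirp (hE : S_EXP) {n : ℕ} [NeZero n] (hn : Odd n) (x : ZMod n) (hx : x ≠ 0) :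
    acf (fun y : ZMod n => ez (y ^ 2)) x = 0 := by
  have h := hE n hn 1 isUnit_one (fun _ => 0) x hx
  simpa using h

/-- MAIN -/
theorem MAIN (hE : S_EXP) (hQ : S_SEQ) (hF : S_FIX) (hU : S_UNI) (hC : S_CRN) : S_MAIN := by
  obtain ⟨R0, hR0⟩ := hC
  obtain ⟨A1, hA1⟩ := hU
  obtain ⟨R, hR⟩ : ∃ R, R = max R0 0 := ⟨_, rfl⟩
  obtain ⟨A, hA⟩ : ∃ A, A = max A1 0 := ⟨_, rfl⟩
  have hR1 : 0 ≤ R := by rw [hR]; exact le_max_right _ _
  have hA2 : 0 ≤ A := by rw [hA]; exact le_max_right _ _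
  obtain ⟨e, he⟩ : ∃ e : ℕ, 4 * R * A + 1 < 2 ^ e := pow_unbounded_of_one_lt _ (by norm_num)
  obtain ⟨B, hB⟩ : ∃ B : ℕ, B + 1 = 2 ^ e := ⟨2 ^ e - 1, by
    have : 0 < 2 ^ e := by positivity
    omega⟩
  have hB' : 4 * R * A < B := by
    have h1 : ((B : ℝ) + 1) = 2 ^ e := by exact_mod_cast congrArg (Nat.cast : ℕ → ℝ) hB
    linarith
  obtain ⟨τ, hτ⟩ : ∃ τ, τ = 4 * 2 ^ e := ⟨_, rfl⟩
  refine ⟨3 * (τ + 1) + e + 2, fun k n hk hn hs => ?_⟩
  rcases Nat.lt_or_ge n 3 with h3 | h3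
  · have h1 : n = 1 := by
      rcases Nat.odd_iff.1 hn with h
      omega
    subst h1
    have := ex_two.double k
    rwa [mul_one, mul_comm]
  · have : NeZero n := ⟨by omega⟩
    obtain ⟨U, V, w, hU1, hV1, hw, hr⟩ := hR0 n hn h3
    obtain ⟨c, hc, hD, hc1⟩ := hA1 n hn hs h3
    obtain ⟨ψ, hψ⟩ := hF n hn 4 B c hc hD (fun x => acf U x + acf V x + acf w x)
      (fun x => by simp only [acf_neg, star_add]) R
      (fun x hx => le_trans (hr x hx) (by rw [hR]; exact le_max_left _ _))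
      (lt_of_le_of_lt (mul_le_mul_of_nonneg_left
        (le_trans hc1 (by rw [hA]; exact le_max_left _ _)) (by positivity)) hB')
    have hcard : Fintype.card (Fin (τ - 1)) = Fintype.card ((Unit ⊕ (Fin 4 × Fin B)) ⊕ Fin 2) := by
      simp only [Fintype.card_fin, Fintype.card_sum, Fintype.card_prod, Fintype.card_unit]
      omega
    obtain ⟨E, -⟩ : ∃ E : Fin (τ - 1) ≃ ((Unit ⊕ (Fin 4 × Fin B)) ⊕ Fin 2), True :=
      ⟨Fintype.equivOfCardEq hcard, trivial⟩
    obtain ⟨v, hv⟩ : ∃ v : ((Unit ⊕ (Fin 4 × Fin B)) ⊕ Fin 2) → ZMod n → ℂ,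
        v = Sum.elim (Sum.elim (fun _ => w) (fun p => fun y : ZMod n =>
          ez (c p.1 * y ^ 2) * Complex.exp (Complex.I * ψ p.1 y))) (fun _ => fun y => ez (y ^ 2)) :=
      ⟨_, rfl⟩
    have hv1 : ∀ j y, ‖v j y‖ = 1 := by
      intro j y
      rw [hv]
      rcases j with (j | j) | j
      · exact hw y
      · simp only [Sum.elim_inl, Sum.elim_inr]
        rw [norm_mul, norm_ez, norm_expI, one_mul]
      · exact norm_ez _
    have hv2 : ∀ x, x ≠ 0 → acf U x + acf V x + ∑ j, acf (v (E j)) x = 0 := by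
      intro x hx
      rw [Equiv.sum_comp E (fun j => acf (v j) x), Fintype.sum_sum_type, Fintype.sum_sum_type]
      have h1 := hψ x hx
      rw [hv]
      simp only [Sum.elim_inl, Sum.elim_inr, Finset.univ_unique, Finset.card_singleton,
        Fintype.sum_prod_type, Finset.sum_const, Finset.card_univ, Fintype.card_fin, nsmul_eq_mul]
      rw [acf_chirp hE hn x hx, ← Finset.mul_sum]
      push_cast
      linear_combination h1
    have hτ1 : 1 ≤ τ := by omega
    have hex := hQ τ n hτ1 hn h3 U V (fun j => v (E j)) hU1 hV1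
      (fun j y => hv1 _ _) hv2
    have h4 := hex.double (k - (3 * (τ + 1) + e + 2))
    have e1 : 2 * (2 ^ k * n) = 2 ^ (k - (3 * (τ + 1) + e + 2)) *
        (8 ^ (τ + 1) * (2 * τ * n)) := by
      have h5 : 2 ^ k = 2 ^ (k - (3 * (τ + 1) + e + 2)) * 2 ^ (3 * (τ + 1) + e + 2) := by
        rw [← pow_add]
        congr 1
        omega
      have h6 : (8 : ℕ) ^ (τ + 1) = 2 ^ (3 * (τ + 1)) := by
        rw [show (8 : ℕ) = 2 ^ 3 by norm_num, ← pow_mul]
      rw [h5, h6, pow_add, pow_add]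
      calc _ = 2 ^ (k - (3 * (τ + 1) + e + 2)) * (2 ^ (3 * (τ + 1)) * (2 * (4 * 2 ^ e) * n)) := by
            ring
        _ = _ := by rw [← hτ]
    rw [e1]
    exact h4

end Pool.Agent.H15.U
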