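import Pool.Agent.H15.U.Defs2
import Pool.Agent.H15.U.MAIN
import Pool.Agent.H26.U.Ez

/-!
# Project U2, FIX2: the phases, the weights and their bounds
-/

namespace Pool.Agent.H15.U

open Pool.Agent.H26.U Finset

set_option linter.unusedSectionVars false

variable {n : ℕ} [NeZero n]

/-- the sum of the squares of the sines -/
noncomputable def DD (c : Fin 4 → ZMod n) (x : ZMod n) : ℝ := ∑ j, sz (c j * x ^ 2) ^ 2

/-- the sum of the squares of the sines of the levels -/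
noncomputable def sg (μ : ℕ) (x : ZMod n) : ℝ :=
  ∑ l ∈ range 24, sz (((μ ^ l : ℕ) : ZMod n) * x) ^ 2

open Classical in
/-- the coefficients of the phases of the chirps -/
noncomputable def gco (c : Fin 4 → ZMod n) (r : ZMod n → ℂ) (j : Fin 4) (x : ZMod n) : ℂ :=
  if x ^ 2 ≠ 0 then ((sz (c j * x ^ 2) / DD c x : ℝ) : ℂ) * r x else 0

/-- the phases of the chirps -/
noncomputable def psi (c : Fin 4 → ZMod n) (B : ℝ) (r : ZMod n → ℂ) (j : Fin 4) (y : ZMod n) : ℝ :=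
  -(1 / (2 * n * B)) * (∑ x, gco c r j x * ez (-(2 * c j * x * y))).re

open Classical in
/-- the coefficients of the amplitude -/
noncomputable def zco (μ : ℕ) (lam : ℝ) (r : ZMod n → ℂ) (x : ZMod n) : ℂ :=
  if x ≠ 0 ∧ x ^ 2 = 0 then ((1 / (12 * lam * n * sg μ x) : ℝ) : ℂ) * r x else 0

/-- the amplitude -/
noncomputable def rho (μ : ℕ) (lam : ℝ) (r : ZMod n → ℂ) (y : ZMod n) : ℝ :=
  (∑ x, zco μ lam r x * ez (-(2 * 1 * x * y))).re

open Classical in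
/-- the weights -/
noncomputable def om (c : Fin 4 → ZMod n) (μ : ℕ) (x : ZMod n) : ℝ :=
  if x ^ 2 ≠ 0 then 1 / (n * DD c x) else if x = 0 then 1 / n else 1 / (μ : ℝ) ^ 24

/-- the factor of a chirp -/
noncomputable def chf (c x y : ZMod n) : ℂ := ez (c * (2 * x * y - x ^ 2))

open Classical in
/-- the map -/
noncomputable def PP (c : Fin 4 → ZMod n) (B : ℝ) (μ : ℕ) (lam : ℝ) (r0 r : ZMod n → ℂ)
    (x : ZMod n) : ℂ :=
  if x = 0 then 0 else r0 x + B * ∑ j, qpart (chf (c j) x) (psi c B r j) x +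
    ∑ l ∈ range 24, famT lam (((μ ^ l : ℕ) : ZMod n)) (rho μ lam r) x

lemma gco_sub (c : Fin 4 → ZMod n) (r r' : ZMod n → ℂ) (j : Fin 4) (x : ZMod n) :
    gco c r j x - gco c r' j x = gco c (fun x => r x - r' x) j x := by
  unfold gco
  split_ifs
  · ring
  · ring

lemma zco_sub (μ : ℕ) (lam : ℝ) (r r' : ZMod n → ℂ) (x : ZMod n) :
    zco μ lam r x - zco μ lam r' x = zco μ lam (fun x => r x - r' x) x := by
  unfold zco
  split_ifs
  · ring
  · ring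

lemma psi_sub (c : Fin 4 → ZMod n) (B : ℝ) (r r' : ZMod n → ℂ) (j : Fin 4) (y : ZMod n) :
    psi c B r j y - psi c B r' j y = psi c B (fun x => r x - r' x) j y := by
  unfold psi
  rw [← mul_sub, ← Complex.sub_re, ← sum_sub_distrib]
  congr 2
  refine sum_congr rfl fun x _ => ?_
  rw [← sub_mul, gco_sub]

lemma rho_sub (μ : ℕ) (lam : ℝ) (r r' : ZMod n → ℂ) (y : ZMod n) :
    rho μ lam r y - rho μ lam r' y = rho μ lam (fun x => r x - r' x) y := by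
  unfold rho
  rw [← Complex.sub_re, ← sum_sub_distrib]
  congr 1
  refine sum_congr rfl fun x _ => ?_
  rw [← sub_mul, zco_sub]

lemma psi_zero (c : Fin 4 → ZMod n) (B : ℝ) (j : Fin 4) :
    psi c B (fun _ => 0) j = fun _ => 0 := by
  funext y
  simp [psi, gco]

lemma rho_zero (μ : ℕ) (lam : ℝ) : rho μ lam (fun _ : ZMod n => 0) = fun _ => 0 := by
  funext y
  simp [rho, zco]

lemma DD_nonneg (c : Fin 4 → ZMod n) (x : ZMod n) : 0 ≤ DD c x :=
  sum_nonneg fun _ _ => sq_nonneg _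

lemma npos : (0 : ℝ) < n := by exact_mod_cast Nat.pos_of_ne_zero (NeZero.ne n)

lemma om_pos (c : Fin 4 → ZMod n) {μ : ℕ} (hμ : 2 ≤ μ)
    (hD : ∀ x : ZMod n, x ^ 2 ≠ 0 → 0 < DD c x) (x : ZMod n) : 0 < om c μ x := by
  have hn := npos (n := n)
  have hm : (0 : ℝ) < μ := by exact_mod_cast (by omega : 0 < μ)
  unfold om
  split_ifs with h1 h2
  · have := hD x h1
    positivity
  · positivity
  · positivity

/-- the bound of the phases of the chirps -/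
lemma psi_bd (hP : S_PV) (hn : Odd n) (c : Fin 4 → ZMod n) (hc : ∀ j, IsUnit (c j)) {μ : ℕ}
    (hμ : 2 ≤ μ) (hD : ∀ x : ZMod n, x ^ 2 ≠ 0 → 0 < DD c x) {B : ℝ} (hB : 0 < B)
    (r : ZMod n → ℂ) (j : Fin 4) : nr (psi c B r j) ≤ nw (om c μ) r / (2 * B) := by
  have hn0 := npos (n := n)
  have h1 : ∑ y, psi c B r j y ^ 2 ≤ (1 / (2 * n * B)) ^ 2 * (n * ∑ x, ‖gco c r j x‖ ^ 2) := by
    refine le_trans (le_of_eq ?_) (mul_le_mul_of_nonneg_left (hP n hn (c j) (hc j) (gco c r j))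
      (sq_nonneg _))
    rw [mul_sum]
    refine sum_congr rfl fun y _ => ?_
    rw [psi, mul_pow, neg_sq]
  have h2 : ∀ x, ‖gco c r j x‖ ^ 2 ≤ n * (om c μ x * ‖r x‖ ^ 2) := by
    intro x
    by_cases hx : x ^ 2 ≠ 0
    · have hDx := hD x hx
      have h3 : sz (c j * x ^ 2) ^ 2 ≤ DD c x :=
        single_le_sum (f := fun j => sz (c j * x ^ 2) ^ 2) (fun _ _ => sq_nonneg _) (mem_univ j)
      rw [gco, if_pos hx, om, if_pos hx, norm_mul, Complex.norm_real, mul_pow, Real.norm_eq_abs,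
        sq_abs, div_pow, ← mul_assoc]
      apply mul_le_mul_of_nonneg_right _ (sq_nonneg _)
      rw [show (n : ℝ) * (1 / (n * DD c x)) = 1 / DD c x by field_simp, div_le_div_iff₀
        (by positivity) hDx, pow_two (DD c x), one_mul]
      exact mul_le_mul_of_nonneg_right h3 hDx.le
    · rw [gco, if_neg hx]
      have := (om_pos c hμ hD x).le
      rw [norm_zero, zero_pow two_ne_zero]
      positivity
  unfold nr nw
  rw [Real.sqrt_le_left (by positivity), div_pow, Real.sq_sqrt (sum_nonneg fun x _ => by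
    have := (om_pos c hμ hD x).le
    positivity)]
  refine le_trans h1 ?_
  have h4 : ∑ x, ‖gco c r j x‖ ^ 2 ≤ n * ∑ x, om c μ x * ‖r x‖ ^ 2 := by
    rw [mul_sum]
    exact sum_le_sum fun x _ => h2 x
  have h5 : (1 / (2 * (n : ℝ) * B)) ^ 2 * (n * ∑ x, ‖gco c r j x‖ ^ 2) ≤
      (1 / (2 * (n : ℝ) * B)) ^ 2 * (n * (n * ∑ x, om c μ x * ‖r x‖ ^ 2)) := by
    gcongr
  refine le_trans h5 (le_of_eq ?_)
  field_simp

/-- the bound of the amplitude -/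
lemma rho_bd (hP : S_PV) (hL : S_LEV) (hn : Odd n) (c : Fin 4 → ZMod n) {μ : ℕ}
    (hμ : 2 ≤ μ) (hμ1 : n ≤ μ ^ 48) (hμ2 : μ ^ 48 ≤ 2 ^ 48 * n)
    (hD : ∀ x : ZMod n, x ^ 2 ≠ 0 → 0 < DD c x)
    (r : ZMod n → ℂ) : nr (rho μ (1 / (μ : ℝ) ^ 8) r) ≤ 2 ^ 24 / (μ : ℝ) ^ 2 * nw (om c μ) r := by
  have hn0 := npos (n := n)
  have hm : (0 : ℝ) < μ := by exact_mod_cast (by omega : 0 < μ)
  have h1 : ∑ y, rho μ (1 / (μ : ℝ) ^ 8) r y ^ 2 ≤
      n * ∑ x, ‖zco μ (1 / (μ : ℝ) ^ 8) r x‖ ^ 2 :=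
    hP n hn 1 isUnit_one (zco μ (1 / (μ : ℝ) ^ 8) r)
  have h2 : ∀ x, ‖zco μ (1 / (μ : ℝ) ^ 8) r x‖ ^ 2 ≤
      (μ : ℝ) ^ 44 / (n : ℝ) ^ 2 * (om c μ x * ‖r x‖ ^ 2) := by
    intro x
    by_cases hx : x ≠ 0 ∧ x ^ 2 = 0
    · have h3 := hL n μ 24 hn hμ (by simpa using hμ1) x hx.1 hx.2
      have h4 : (0 : ℝ) < sg μ x := lt_of_lt_of_le (by positivity) h3
      have h5 : 1 ≤ sg μ x * (μ : ℝ) ^ 2 := by
        rwa [div_le_iff₀ (by positivity)] at h3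
      rw [zco, if_pos hx, om, if_neg (by simp [hx.2]), if_neg hx.1, norm_mul, Complex.norm_real,
        mul_pow, Real.norm_eq_abs, sq_abs, ← mul_assoc]
      apply mul_le_mul_of_nonneg_right _ (sq_nonneg _)
      have e1 : (1 / (12 * (1 / (μ : ℝ) ^ 8) * n * sg μ x)) ^ 2 =
          (μ : ℝ) ^ 16 / (144 * n ^ 2 * sg μ x ^ 2) := by
        field_simp
        norm_num
      have e2 : (μ : ℝ) ^ 44 / (n : ℝ) ^ 2 * (1 / (μ : ℝ) ^ 24) = (μ : ℝ) ^ 20 / n ^ 2 := by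
        field_simp
      rw [e1, e2, div_le_div_iff₀ (by positivity) (by positivity)]
      have h6 : 1 ≤ (sg μ x * (μ : ℝ) ^ 2) ^ 2 := one_le_pow₀ h5
      calc (μ : ℝ) ^ 16 * n ^ 2 = (μ : ℝ) ^ 16 * n ^ 2 * 1 := (mul_one _).symm
        _ ≤ (μ : ℝ) ^ 16 * n ^ 2 * (144 * (sg μ x * (μ : ℝ) ^ 2) ^ 2) := by
            apply mul_le_mul_of_nonneg_left _ (by positivity)
            linarith
        _ = (μ : ℝ) ^ 20 * (144 * n ^ 2 * sg μ x ^ 2) := by ring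
    · rw [zco, if_neg hx]
      have := (om_pos c hμ hD x).le
      rw [norm_zero, zero_pow two_ne_zero]
      positivity
  have h7 : (μ : ℝ) ^ 48 ≤ 2 ^ 48 * n := by exact_mod_cast hμ2
  have h8 : ∑ x, ‖zco μ (1 / (μ : ℝ) ^ 8) r x‖ ^ 2 ≤
      (μ : ℝ) ^ 44 / (n : ℝ) ^ 2 * ∑ x, om c μ x * ‖r x‖ ^ 2 := by
    rw [mul_sum]
    exact sum_le_sum fun x _ => h2 x
  have h9 : 0 ≤ ∑ x, om c μ x * ‖r x‖ ^ 2 := sum_nonneg fun x _ => by
    have := (om_pos c hμ hD x).le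
    positivity
  unfold nr nw
  rw [Real.sqrt_le_left (by positivity), mul_pow, Real.sq_sqrt h9]
  refine le_trans h1 (le_trans (mul_le_mul_of_nonneg_left h8 hn0.le) ?_)
  rw [← mul_assoc]
  apply mul_le_mul_of_nonneg_right _ h9
  rw [show (n : ℝ) * ((μ : ℝ) ^ 44 / (n : ℝ) ^ 2) = (μ : ℝ) ^ 44 / n by field_simp, div_pow,
    div_le_div_iff₀ hn0 (by positivity)]
  calc (μ : ℝ) ^ 44 * ((μ : ℝ) ^ 2) ^ 2 = (μ : ℝ) ^ 48 := by ring
    _ ≤ 2 ^ 48 * (n : ℝ) := h7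
    _ = (2 ^ 24) ^ 2 * (n : ℝ) := by norm_num

end Pool.Agent.H15.U
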