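import Pool.Agent.H15.U.MAIN2
import Pool.Agent.H15.U.FIX2
import Pool.Agent.H20.U.FAM
import Pool.Agent.H20.U.SEC
import Pool.Agent.H22.U.SEQ
import Pool.Agent.H22.U.CAR
import Pool.Agent.H22.U.SEED
import Pool.Agent.H23.U.CRN
import Pool.Agent.H26.U.GAM
import Pool.Agent.H26.U.GBD
import Pool.Agent.H26.U.PSB
import Pool.Agent.H26.U.SER
import Pool.Agent.H26.U.VBD
import Pool.Agent.H26.U.VRH
import Pool.Agent.H34.U.BLK
import Pool.Agent.H34.U.EXP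
import Pool.Agent.H34.U.LEV
import Pool.Agent.H34.U.PV
import Pool.Agent.H34.U.QL
import Pool.Agent.H34.U.UX2
import Pool.Agent.H78.U.BAN

/-!
# Project U2 (MP_0c7934_co): the final theorem
-/

namespace Pool.Agent.H15.U

open Pool.Agent.H26.U Pool.Agent.H54.Etf Pool.Agent.H37.Etf

/-- there is `k₀` such that for all `k ≥ k₀` and all `n ≥ 1` there is a Hermitian conference matrix
of order `2 * 2 ^ k * n` -/
theorem every_n : S_MAIN2 :=
  have hE : S_EXP := Pool.Agent.H34.U.EXP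
  have hG : S_GAM := Pool.Agent.H26.U.GAM
  have hGB : S_GBD := Pool.Agent.H26.U.GBD hG (Pool.Agent.H26.U.PSB hG)
  have hV : S_VBD := Pool.Agent.H26.U.VBD (Pool.Agent.H26.U.VRH
    (Pool.Agent.H26.U.FBD hGB hG) Pool.Agent.H26.U.SER hG) Pool.Agent.H20.U.SEC
  MAIN2 hE (Pool.Agent.H22.U.SEQ (Pool.Agent.H22.U.CAR Pool.Agent.H22.U.SEED) Pool.Agent.H34.U.BLK)
    (FIX2 hE Pool.Agent.H34.U.PV Pool.Agent.H34.U.INV Pool.Agent.H34.U.QL Pool.Agent.H34.U.LEV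
      Pool.Agent.H34.U.CK0 Pool.Agent.H20.U.FAM Pool.Agent.H78.U.BAN)
    Pool.Agent.H34.U.UNI2 (Pool.Agent.H23.U.CRN hV)

/-- there is `k₀` such that there is a complex equiangular tight frame of `2M` vectors in `ℂ^M`
for every `M` divisible by `2 ^ k₀` -/
theorem every_multiple : ∃ k₀ : ℕ, ∀ M : ℕ, 1 ≤ M → 2 ^ k₀ ∣ M →
    ∃ f : Fin (2 * M) → EuclideanSpace ℂ (Fin M), IsETF f := by
  obtain ⟨k₀, h⟩ := every_n
  refine ⟨k₀, fun M hM hd => ?_⟩
  obtain ⟨n, rfl⟩ := hd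
  exact (h k₀ n le_rfl (Nat.pos_of_mul_pos_left hM)).etf hM

end Pool.Agent.H15.U
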