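import Pool.Agent.H15.U.Defs2
import Pool.Agent.H15.U.MAIN

/-!
# Project U2 (MP_0c7934_co): every `n`
-/

namespace Pool.Agent.H15.U

open Pool.Agent.H26.U Pool.Agent.H54.Etf

/-- the odd numbers `n ≥ n0` -/
lemma main2_odd (hE : S_EXP) (hQ : S_SEQ) (hF : S_FIX2) (hU : S_UNI2) (hC : S_CRN) :
    ∃ k0 n0 : ℕ, ∀ k n : ℕ, k0 ≤ k → Odd n → n0 ≤ n → Ex (2 * (2 ^ k * n)) := by
  obtain ⟨R0, hR0⟩ := hC
  obtain ⟨A1, hA1⟩ := hU
  obtain ⟨K, n0, hK⟩ := hF A1 R0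
  obtain ⟨e, he⟩ : ∃ e : ℕ, K + 2 < 2 ^ e := ⟨K + 2, Nat.lt_two_pow_self⟩
  refine ⟨3 * (2 ^ e + 1) + e, max n0 3, fun k n hk hn h3 => ?_⟩
  have h3' : 3 ≤ n := le_trans (le_max_right _ _) h3
  have : NeZero n := ⟨by omega⟩
  obtain ⟨U, V, w, hU1, hV1, hw, hr⟩ := hR0 n hn h3'
  obtain ⟨c, hc, hD, hc1⟩ := hA1 n hn h3'
  obtain ⟨v, hv1, hv2⟩ := hK n hn (le_trans (le_max_left _ _) h3) c hc hD hc1
    (fun x => acf U x + acf V x + acf w x)
    (fun x => by simp only [acf_neg, star_add]) hr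
  have hcard : Fintype.card (Fin (2 ^ e - 1)) =
      Fintype.card ((Unit ⊕ Fin K) ⊕ Fin (2 ^ e - 2 - K)) := by
    simp only [Fintype.card_fin, Fintype.card_sum, Fintype.card_unit]
    omega
  obtain ⟨E, -⟩ : ∃ E : Fin (2 ^ e - 1) ≃ ((Unit ⊕ Fin K) ⊕ Fin (2 ^ e - 2 - K)), True :=
    ⟨Fintype.equivOfCardEq hcard, trivial⟩
  obtain ⟨v', hv'⟩ : ∃ v' : ((Unit ⊕ Fin K) ⊕ Fin (2 ^ e - 2 - K)) → ZMod n → ℂ,
      v' = Sum.elim (Sum.elim (fun _ => w) v) (fun _ => fun y => ez (y ^ 2)) := ⟨_, rfl⟩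
  have hv'1 : ∀ j y, ‖v' j y‖ = 1 := by
    intro j y
    rw [hv']
    rcases j with (j | j) | j
    · exact hw y
    · exact hv1 _ _
    · exact norm_ez _
  have hv'2 : ∀ x, x ≠ 0 → acf U x + acf V x + ∑ j, acf (v' (E j)) x = 0 := by
    intro x hx
    rw [Equiv.sum_comp E (fun j => acf (v' j) x), Fintype.sum_sum_type, Fintype.sum_sum_type]
    have h1 := hv2 x hx
    rw [hv']
    simp only [Sum.elim_inl, Sum.elim_inr, Finset.univ_unique, Finset.card_singleton,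
      Finset.sum_const]
    rw [acf_chirp hE hn x hx]
    simp only [one_smul, smul_zero]
    linear_combination h1
  have hτ1 : 1 ≤ 2 ^ e := Nat.one_le_two_pow
  have hex := hQ (2 ^ e) n hτ1 hn h3' U V (fun j => v' (E j)) hU1 hV1 (fun j y => hv'1 _ _) hv'2
  have h4 := hex.double (k - (3 * (2 ^ e + 1) + e))
  have e1 : 2 * (2 ^ k * n) = 2 ^ (k - (3 * (2 ^ e + 1) + e)) *
      (8 ^ (2 ^ e + 1) * (2 * 2 ^ e * n)) := by
    have h5 : 2 ^ k = 2 ^ (k - (3 * (2 ^ e + 1) + e)) * 2 ^ (3 * (2 ^ e + 1) + e) := by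
      rw [← pow_add]
      congr 1
      omega
    have h6 : (8 : ℕ) ^ (2 ^ e + 1) = 2 ^ (3 * (2 ^ e + 1)) := by
      rw [show (8 : ℕ) = 2 ^ 3 by norm_num, ← pow_mul]
    rw [h5, h6, pow_add]
    ring
  rw [e1]
  exact h4

/-- MAIN2 -/
theorem MAIN2 (hE : S_EXP) (hQ : S_SEQ) (hF : S_FIX2) (hU : S_UNI2) (hC : S_CRN) : S_MAIN2 := by
  obtain ⟨k0, n0, h0⟩ := main2_odd hE hQ hF hU hC
  refine ⟨max k0 (2 * n0), fun k n hk hn => ?_⟩
  obtain ⟨a, m, hm, rfl⟩ := Nat.exists_eq_two_pow_mul_odd (n := n) (by omega)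
  have hk1 : k0 ≤ k := le_trans (le_max_left _ _) hk
  have hk2 : 2 * n0 ≤ k := le_trans (le_max_right _ _) hk
  have hm0 : 0 < m := hm.pos
  rcases Nat.lt_or_ge m n0 with h1 | h1
  · apply ex_all _ _ hn
    rw [erase_two hm]
    have h2 : m.primeFactors.card ≤ m := by
      have : m.primeFactors ⊆ Finset.Icc 1 m := by
        intro p hp
        rw [Finset.mem_Icc]
        exact ⟨(Nat.prime_of_mem_primeFactors hp).one_le,
          Nat.le_of_dvd hm0 (Nat.dvd_of_mem_primeFactors hp)⟩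
      have h3 := Finset.card_le_card this
      rw [Nat.card_Icc] at h3
      omega
    omega
  · have h2 := h0 (k + a) m (by omega) hm h1
    rw [show 2 * (2 ^ k * (2 ^ a * m)) = 2 * (2 ^ (k + a) * m) by rw [pow_add]; ring]
    exact h2

end Pool.Agent.H15.U
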